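import Pool.Agent.H74.TF.Stm

/-!
# Project TF, part SYMM: symmetric polynomials of Jucys-Murphy elements give semi-invariant functions
-/

set_option autoImplicit false

namespace Pool.Agent.H37.TF

open Finset Equiv MvPolynomial Pool.Agent.H74.TF

theorem perm_ind {n : ℕ} (P : Perm (Fin n) → Prop) (h1 : P 1)
    (hm : ∀ σ τ, P σ → P τ → P (σ * τ))
    (hs : ∀ i i' : Fin n, (i' : ℕ) = i + 1 → P (swap i i')) (σ : Perm (Fin n)) : P σ := by
  cases n with
  | zero =>
    have : σ = 1 := Subsingleton.elim _ _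
    rw [this]
    exact h1
  | succ n =>
    have hσ : σ ∈ Submonoid.closure (Set.range fun i : Fin n => swap i.castSucc i.succ) := by
      rw [Equiv.Perm.mclosure_swap_castSucc_succ]
      trivial
    refine Submonoid.closure_induction (motive := fun σ _ => P σ) ?_ h1
      (fun σ τ _ _ h h' => hm σ τ h h') hσ
    rintro _ ⟨i, rfl⟩
    exact hs _ _ (by simp)

theorem rk_inj (m k : ℕ) : Function.Injective (rk : Pt m k → ℕ) := by
  rintro (⟨i, b⟩ | r) (⟨i', b'⟩ | r') h
  · have hb : b.toNat ≤ 1 := Bool.toNat_le b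
    have hb' : b'.toNat ≤ 1 := Bool.toNat_le b'
    simp only [rk] at h
    have h1 : i = i' := Fin.ext (by omega)
    have h2 : b.toNat = b'.toNat := by omega
    have h3 : b = b' := by
      cases b <;> cases b' <;> simp_all
    rw [h1, h3]
  · have hb : b.toNat ≤ 1 := Bool.toNat_le b
    have := i.2
    simp only [rk] at h
    omega
  · have hb : b'.toNat ≤ 1 := Bool.toNat_le b'
    have := i'.2
    simp only [rk] at h
    omega
  · simp only [rk] at h
    have h1 : r = r' := Fin.ext (by omega)
    rw [h1]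

theorem nb {m k : ℕ} {x x' : Pt m k} (h : rk x' = rk x + 1) :
    rk x < rk x' ∧ ∀ y, rk y < rk x ∨ rk x' < rk y ∨ y = x ∨ y = x' := by
  refine ⟨by omega, fun y => ?_⟩
  rcases lt_trichotomy (rk y) (rk x) with h1 | h1 | h1
  · exact Or.inl h1
  · exact Or.inr (Or.inr (Or.inl (rk_inj m k h1)))
  · rcases Nat.lt_or_ge (rk x') (rk y) with h2 | h2
    · exact Or.inr (Or.inl h2)
    · exact Or.inr (Or.inr (Or.inr (rk_inj m k (by omega))))

theorem evs_adjoin {σ R U : Type} [CommRing R] [AddCommGroup U] [Module R U]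
    (evs : MvPolynomial σ R →ₐ[R] Module.End R U) (G : Set (MvPolynomial σ R))
    (N : Submodule R U) (h : ∀ g ∈ G, ∀ u ∈ N, evs g u ∈ N) :
    ∀ f ∈ Algebra.adjoin R G, ∀ u ∈ N, evs f u ∈ N := by
  intro f hf
  refine Algebra.adjoin_induction (p := fun f _ => ∀ u ∈ N, evs f u ∈ N) (fun g hg => h g hg)
    ?_ ?_ ?_ hf
  · intro r u hu
    rw [AlgHom.commutes]
    exact N.smul_mem r hu
  · intro a b _ _ ha hb u hu
    rw [map_add]
    exact N.add_mem (ha u hu) (hb u hu)
  · intro a b _ _ ha hb u hu
    rw [map_mul]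
    exact ha _ (hb u hu)

theorem evs_all {σ R U : Type} [CommRing R] [AddCommGroup U] [Module R U]
    (evs : MvPolynomial σ R →ₐ[R] Module.End R U)
    (N : Submodule R U) (h : ∀ c, ∀ u ∈ N, evs (X c) u ∈ N) (f : MvPolynomial σ R) :
    ∀ u ∈ N, evs f u ∈ N := by
  refine evs_adjoin evs (Set.range X) N ?_ f ?_
  · rintro _ ⟨c, rfl⟩
    exact h c
  · rw [MvPolynomial.adjoin_range_X]
    trivial

/-- permutations of the pairs -/
def PP {m : ℕ} (π : Perm (Fin m)) : Perm (Fin m × Bool) := Equiv.prodCongr π (Equiv.refl Bool)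

/-- the flips of the pairs in `S` -/
def FS {m : ℕ} (S : Finset (Fin m)) : Perm (Fin m × Bool) where
  toFun x := (x.1, if x.1 ∈ S then !x.2 else x.2)
  invFun x := (x.1, if x.1 ∈ S then !x.2 else x.2)
  left_inv x := by
    by_cases h : x.1 ∈ S <;> simp [h]
  right_inv x := by
    by_cases h : x.1 ∈ S <;> simp [h]

theorem FS_empty {m : ℕ} : FS (∅ : Finset (Fin m)) = 1 := by
  ext x <;> simp [FS]

theorem FS_insert {m : ℕ} (S : Finset (Fin m)) (i : Fin m) (hi : i ∉ S) :
    FS (insert i S) = swap (i, false) (i, true) * FS S := by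
  refine Equiv.ext fun x => ?_
  obtain ⟨j, b⟩ := x
  show (j, if j ∈ insert i S then !b else b) =
    swap (i, false) (i, true) (j, if j ∈ S then !b else b)
  by_cases hj : j = i
  · subst hj
    rw [if_pos (Finset.mem_insert_self _ _), if_neg hi]
    cases b
    · rw [swap_apply_left]
      rfl
    · rw [swap_apply_right]
      rfl
  · have h1 : (j ∈ insert i S) ↔ j ∈ S := by
      rw [Finset.mem_insert]
      exact or_iff_right hj
    have h2 : ∀ c : Bool, swap (i, false) (i, true) (j, c) = (j, c) := by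
      intro c
      refine swap_apply_of_ne_of_ne ?_ ?_
      · intro h
        exact hj (Prod.ext_iff.1 h).1
      · intro h
        exact hj (Prod.ext_iff.1 h).1
    simp only [h1, h2]

theorem PP_mul {m : ℕ} (π π' : Perm (Fin m)) : PP (π * π') = PP π * PP π' := rfl

theorem wr_decomp (hV : C_V0) {m : ℕ} (a : Perm (Fin m × Bool)) (ha : wr a) :
    ∃ (π : Perm (Fin m)) (S : Finset (Fin m)), a = PP π * FS S := by
  classical
  have h1 := (hV.1 m 0 a).1 ha
  have inj : Function.Injective (fun i : Fin m => (a (i, false)).1) := by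
    intro i j hij
    by_cases h2 : (a (i, false)).2 = (a (j, false)).2
    · have h3 : a (i, false) = a (j, false) := Prod.ext hij h2
      exact (Prod.ext_iff.1 (a.injective h3)).1
    · have h3 : a (j, false) = a (i, true) := by
        have h4 := h1 i false
        rw [Bool.not_false] at h4
        rw [h4]
        refine Prod.ext hij.symm ?_
        show (a (j, false)).2 = !(a (i, false)).2
        have key : ∀ p q : Bool, ¬ q = p → p = !q := by decide
        exact key _ _ h2
      have h4 := (Prod.ext_iff.1 (a.injective h3)).2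
      exact absurd h4 (by simp)
  refine ⟨Equiv.ofBijective _ (Finite.injective_iff_bijective.1 inj),
    Finset.univ.filter fun i => (a (i, false)).2 = true, ?_⟩
  refine Equiv.ext fun x => ?_
  obtain ⟨j, b⟩ := x
  have h5 : (PP (Equiv.ofBijective _ (Finite.injective_iff_bijective.1 inj)) *
      FS (Finset.univ.filter fun i => (a (i, false)).2 = true)) (j, b) =
      ((a (j, false)).1, if (a (j, false)).2 = true then !b else b) := by
    show ((a (j, false)).1, if j ∈ (Finset.univ.filter fun i => (a (i, false)).2 = true) then !b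
      else b) = _
    simp only [Finset.mem_filter, Finset.mem_univ, true_and]
  rw [h5]
  cases b
  · refine Prod.ext rfl ?_
    show (a (j, false)).2 = _
    cases (a (j, false)).2 <;> simp
  · have h4 := h1 j false
    rw [Bool.not_false] at h4
    rw [h4]
    refine Prod.ext rfl ?_
    show (!(a (j, false)).2) = _
    cases (a (j, false)).2 <;> simp

theorem wr_flip {m : ℕ} (i : Fin m) : wr (swap (i, false) (i, true)) := by
  intro j
  by_cases hj : j = i
  · subst hj
    rw [swap_apply_left, swap_apply_right]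
  · have h2 : ∀ c : Bool, swap (i, false) (i, true) (j, c) = (j, c) := by
      intro c
      refine swap_apply_of_ne_of_ne ?_ ?_
      · intro h
        exact hj (Prod.ext_iff.1 h).1
      · intro h
        exact hj (Prod.ext_iff.1 h).1
    rw [h2, h2]

theorem pair_swap {m k : ℕ} {i i' : Fin m} (h : i ≠ i') :
    (iot (PP (swap i i')) 1 : Perm (Pt m k)) =
      swap (Sum.inl (i, true)) (Sum.inl (i', false)) * (swap (Sum.inl (i, false)) (Sum.inl (i, true)) *
        (swap (Sum.inl (i', false)) (Sum.inl (i', true)) *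
          swap (Sum.inl (i, true)) (Sum.inl (i', false)))) := by
  refine Equiv.ext fun x => ?_
  rcases x with ⟨j, b⟩ | r
  · show (Sum.inl (swap i i' j, b) : Pt m k) = _
    simp only [Perm.mul_apply]
    by_cases h1 : j = i
    · subst h1
      cases b <;> simp [swap_apply_def, h, h.symm]
    · by_cases h2 : j = i'
      · subst h2
        cases b <;> simp [swap_apply_def, h, h.symm]
      · cases b <;> simp [swap_apply_def, h1, h2]
  · show (Sum.inr r : Pt m k) = _
    simp [swap_apply_def]

/-- the computation with two pairs -/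
theorem quad {R U : Type} [CommRing R] [AddCommGroup U] [Module R U] (N : Submodule R U)
    (A B C D T : Module.End R U) (hAC : Commute A C)
    (e1 : Commute T (A + B + (C + D))) (e2 : Commute T (A * B + (A + B) * (C + D) + C * D))
    (hB : ∀ u ∈ N, B u = A u + u) (hD : ∀ u ∈ N, D u = C u + u) (hA : ∀ u ∈ N, A u ∈ N)
    (hC : ∀ u ∈ N, C u ∈ N) (h2 : ∀ u v : U, u + u = v + v → u = v) :
    ∀ u ∈ N, T u = u → T ((A + C) u) = (A + C) u ∧ T ((A * C) u) = (A * C) u := by
  have s1 : ∀ u ∈ N, T u = u → T (A u) + T (C u) = A u + C u := by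
    intro u hu ht
    apply h2
    have h := LinearMap.congr_fun e1.eq u
    simp only [Module.End.mul_apply, LinearMap.add_apply, ht, hB u hu, hD u hu, map_add] at h
    rw [← sub_eq_zero] at h ⊢
    rw [← h]
    abel
  intro u hu ht
  have k1 := s1 u hu ht
  have k2 := s1 ((A + C) u) (N.add_mem (hA u hu) (hC u hu)) (by
    rw [LinearMap.add_apply, map_add]
    exact k1)
  refine ⟨by rw [LinearMap.add_apply, map_add]; exact k1, ?_⟩
  apply h2
  have h := LinearMap.congr_fun e2.eq u
  have h5 : C (A u) = A (C u) := (LinearMap.congr_fun hAC.eq u).symm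
  simp only [Module.End.mul_apply, LinearMap.add_apply, ht, hB u hu, hD u hu, map_add,
    hB (C u) (hC u hu), h5] at h k2 ⊢
  have key : ∀ p1 q1 p2 q2 p3 q3 x y : U, p1 = q1 → p2 = q2 → p3 = q3 →
      x - y = (p1 - q1) - (p2 - q2) - ((p3 - q3) + (p3 - q3) + (p3 - q3)) → x = y := by
    rintro p1 _ p2 _ p3 _ x y rfl rfl rfl h
    simpa [sub_eq_zero] using h
  exact key _ _ _ _ _ _ _ _ h k2 k1 (by abel)

section main

variable {R : Type} [CommRing R] {m k : ℕ}

/-- the vectors which behave like `v0` with respect to the flips -/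
def N0 (R : Type) [CommRing R] (m k : ℕ) : Submodule R (Perm (Pt m k) → R) where
  carrier := {u | ∀ i : Fin m, LL R m k (swap (Sum.inl (i, false)) (Sum.inl (i, true))) u = u ∧
    JJ R m k (Sum.inl (i, true)) u = JJ R m k (Sum.inl (i, false)) u + u}
  zero_mem' := fun i => by simp
  add_mem' := fun {u v} hu hv i => by
    rw [map_add, map_add, map_add, (hu i).1, (hv i).1, (hu i).2, (hv i).2]
    exact ⟨rfl, by abel⟩
  smul_mem' := fun c u hu i => by
    rw [map_smul, map_smul, map_smul, (hu i).1, (hu i).2, smul_add]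
    exact ⟨rfl, rfl⟩

theorem LL_v0 (hV : C_V0) {h : Perm (Pt m k)} {a : Perm (Fin m × Bool)} {b : Perm (Fin k)}
    (hh : h⁻¹ = iot a b) (ha : wr a) : LL R m k h (v0 R m k) = sg b • v0 R m k := by
  funext x
  show v0 R m k (h⁻¹ * x) = _
  rw [hh, ((hV.2.2 R m k).2.2.1 x a b ha).2]
  rfl

theorem N0_v0 (hV : C_V0) (hREL : C_REL) : v0 R m k ∈ N0 R m k := by
  intro i
  refine ⟨?_, hREL R m k i⟩
  have h1 : (swap (Sum.inl (i, false)) (Sum.inl (i, true)) : Perm (Pt m k))⁻¹ =
      iot (swap (i, false) (i, true)) 1 := by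
    rw [swap_inv]
    exact (Equiv.Perm.sumCongr_swap_one _ _).symm
  rw [LL_v0 hV h1 (wr_flip i)]
  simp [sg]

theorem N0_J (hCOM : C_COM) (c : Fin m ⊕ Fin k) (u : Perm (Pt m k) → R) (hu : u ∈ N0 R m k) :
    JJ R m k (ctr c) u ∈ N0 R m k := by
  obtain ⟨hc, -, hn⟩ := hCOM R (Pt m k) (Perm (Pt m k) → R) (LL R m k) rk (rk_inj m k)
  intro i
  obtain ⟨h1, h2⟩ := hu i
  have hrk : rk (Sum.inl (i, true) : Pt m k) = rk (Sum.inl (i, false) : Pt m k) + 1 := by
    simp [rk]
  obtain ⟨n1, n2⟩ := nb hrk
  obtain ⟨k1, -, -, k4⟩ := hn _ _ n1 n2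
  have e1 : JJ R m k (Sum.inl (i, true)) (JJ R m k (ctr c) u) =
      JJ R m k (ctr c) (JJ R m k (Sum.inl (i, true)) u) :=
    LinearMap.congr_fun (hc (Sum.inl (i, true)) (ctr c)).eq u
  have e2 : JJ R m k (Sum.inl (i, false)) (JJ R m k (ctr c) u) =
      JJ R m k (ctr c) (JJ R m k (Sum.inl (i, false)) u) :=
    LinearMap.congr_fun (hc (Sum.inl (i, false)) (ctr c)).eq u
  refine ⟨?_, by rw [e1, e2, h2, map_add]⟩
  by_cases hci : ctr c = (Sum.inl (i, false) : Pt m k)
  · rw [hci]
    have h3 := LinearMap.congr_fun k1 u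
    have h4 : LL R m k (swap (Sum.inl (i, false)) (Sum.inl (i, true)))
        (JJ R m k (Sum.inl (i, false)) u) = JJ R m k (Sum.inl (i, true))
          (LL R m k (swap (Sum.inl (i, false)) (Sum.inl (i, true))) u) - u := h3
    rw [h4, h1, h2]
    abel
  · have hci' : ctr c ≠ (Sum.inl (i, true) : Pt m k) := by
      rcases c with j | r
      · intro h
        have := (Prod.ext_iff.1 (Sum.inl.inj h)).2
        exact absurd this (by simp)
      · intro h
        exact absurd h (by simp [ctr])
    have h3 := LinearMap.congr_fun (k4 (ctr c) hci hci').eq u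
    have h4 : LL R m k (swap (Sum.inl (i, false)) (Sum.inl (i, true))) (JJ R m k (ctr c) u) =
        JJ R m k (ctr c) (LL R m k (swap (Sum.inl (i, false)) (Sum.inl (i, true))) u) := h3
    rw [h4, h1]

theorem two_cancel (h2 : ∀ a : R, a + a = 0 → a = 0) {u v : Perm (Pt m k) → R}
    (h : u + u = v + v) : u = v := by
  funext x
  have h1 := congrFun h x
  have h3 := h2 (u x - v x) (by
    have h4 : u x + u x = v x + v x := h1
    linear_combination h4)
  exact sub_eq_zero.1 h3

/-- the swap of two neighbouring pairs -/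
theorem pair_step (hCOM : C_COM) (h2 : ∀ a : R, a + a = 0 → a = 0) {i i' : Fin m}
    (hii : (i' : ℕ) = i + 1) (u : Perm (Pt m k) → R) (hu : u ∈ N0 R m k)
    (ht : LL R m k (iot (PP (swap i i')) 1) u = u) :
    LL R m k (iot (PP (swap i i')) 1) ((JJ R m k (Sum.inl (i, false)) +
      JJ R m k (Sum.inl (i', false))) u) = (JJ R m k (Sum.inl (i, false)) +
        JJ R m k (Sum.inl (i', false))) u ∧
    LL R m k (iot (PP (swap i i')) 1) ((JJ R m k (Sum.inl (i, false)) *
      JJ R m k (Sum.inl (i', false))) u) = (JJ R m k (Sum.inl (i, false)) *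
        JJ R m k (Sum.inl (i', false))) u ∧
    ∀ y : Pt m k, y ≠ Sum.inl (i, false) → y ≠ Sum.inl (i, true) → y ≠ Sum.inl (i', false) →
      y ≠ Sum.inl (i', true) → Commute (LL R m k (iot (PP (swap i i')) 1)) (JJ R m k y) := by
  have hne : i ≠ i' := by
    intro h
    rw [h] at hii
    omega
  obtain ⟨hc, -, hn⟩ := hCOM R (Pt m k) (Perm (Pt m k) → R) (LL R m k) rk (rk_inj m k)
  obtain ⟨n1, n1'⟩ := nb (show rk (Sum.inl (i, true) : Pt m k) = rk (Sum.inl (i, false)) + 1 by
    simp [rk])
  obtain ⟨n2, n2'⟩ := nb (show rk (Sum.inl (i', false) : Pt m k) = rk (Sum.inl (i, true)) + 1 by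
    simp [rk]; omega)
  obtain ⟨n3, n3'⟩ := nb (show rk (Sum.inl (i', true) : Pt m k) = rk (Sum.inl (i', false)) + 1 by
    simp [rk])
  obtain ⟨-, p1, q1, r1⟩ := hn _ _ n1 n1'
  obtain ⟨-, p2, q2, r2⟩ := hn _ _ n2 n2'
  obtain ⟨-, p3, q3, r3⟩ := hn _ _ n3 n3'
  have hab : (Sum.inl (i, false) : Pt m k) ≠ Sum.inl (i, true) := by simp
  have hac : (Sum.inl (i, false) : Pt m k) ≠ Sum.inl (i', false) := by simp [hne]
  have had : (Sum.inl (i, false) : Pt m k) ≠ Sum.inl (i', true) := by simp
  have hbc : (Sum.inl (i, true) : Pt m k) ≠ Sum.inl (i', false) := by simp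
  have hbd : (Sum.inl (i, true) : Pt m k) ≠ Sum.inl (i', true) := by simp [hne]
  have hcd : (Sum.inl (i', false) : Pt m k) ≠ Sum.inl (i', true) := by simp
  have hB : ∀ u ∈ N0 R m k, JJ R m k (Sum.inl (i, true)) u =
      JJ R m k (Sum.inl (i, false)) u + u := fun u hu => (hu i).2
  have hD : ∀ u ∈ N0 R m k, JJ R m k (Sum.inl (i', true)) u =
      JJ R m k (Sum.inl (i', false)) u + u := fun u hu => (hu i').2
  have hA : ∀ u ∈ N0 R m k, JJ R m k (Sum.inl (i, false)) u ∈ N0 R m k := fun u hu =>
    N0_J hCOM (Sum.inl i) u hu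
  have hC : ∀ u ∈ N0 R m k, JJ R m k (Sum.inl (i', false)) u ∈ N0 R m k := fun u hu =>
    N0_J hCOM (Sum.inl i') u hu
  rw [pair_swap hne] at ht ⊢
  generalize (Sum.inl (i, false) : Pt m k) = a at *
  generalize (Sum.inl (i, true) : Pt m k) = b at *
  generalize (Sum.inl (i', false) : Pt m k) = c at *
  generalize (Sum.inl (i', true) : Pt m k) = d at *
  have r1c := r1 c hac.symm hbc.symm
  have r1d := r1 d had.symm hbd.symm
  have r2a := r2 a hab hac
  have r2d := r2 d hbd.symm hcd.symm
  have r3a := r3 a hac had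
  have r3b := r3 b hbc hbd
  have cab := hc a b
  have cac := hc a c
  have cbc := hc b c
  have cad := hc a d
  have cbd := hc b d
  have ccd := hc c d
  -- the two symmetric functions
  have E1 : Commute (LL R m k (swap b c * (swap a b * (swap c d * swap b c))))
      (JJ R m k a + JJ R m k b + (JJ R m k c + JJ R m k d)) := by
    rw [map_mul, map_mul, map_mul]
    have t1 : Commute (LL R m k (swap a b)) (JJ R m k a + JJ R m k b + (JJ R m k c + JJ R m k d)) :=
      p1.add_right (r1c.add_right r1d)
    have t3 : Commute (LL R m k (swap c d)) (JJ R m k a + JJ R m k b + (JJ R m k c + JJ R m k d)) :=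
      (r3a.add_right r3b).add_right p3
    have t2 : Commute (LL R m k (swap b c)) (JJ R m k a + JJ R m k b + (JJ R m k c + JJ R m k d)) := by
      have h := (r2a.add_right p2).add_right r2d
      have e : JJ R m k a + (JJ R m k b + JJ R m k c) + JJ R m k d =
          JJ R m k a + JJ R m k b + (JJ R m k c + JJ R m k d) := by abel
      rwa [e] at h
    exact t2.mul_left (t1.mul_left (t3.mul_left t2))
  have E2 : Commute (LL R m k (swap b c * (swap a b * (swap c d * swap b c))))
      (JJ R m k a * JJ R m k b + (JJ R m k a + JJ R m k b) * (JJ R m k c + JJ R m k d) +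
        JJ R m k c * JJ R m k d) := by
    rw [map_mul, map_mul, map_mul]
    have t1 : Commute (LL R m k (swap a b)) (JJ R m k a * JJ R m k b +
        (JJ R m k a + JJ R m k b) * (JJ R m k c + JJ R m k d) + JJ R m k c * JJ R m k d) :=
      (q1.add_right (p1.mul_right (r1c.add_right r1d))).add_right (r1c.mul_right r1d)
    have t3 : Commute (LL R m k (swap c d)) (JJ R m k a * JJ R m k b +
        (JJ R m k a + JJ R m k b) * (JJ R m k c + JJ R m k d) + JJ R m k c * JJ R m k d) :=
      ((r3a.mul_right r3b).add_right ((r3a.add_right r3b).mul_right p3)).add_right q3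
    have t2 : Commute (LL R m k (swap b c)) (JJ R m k a * JJ R m k b +
        (JJ R m k a + JJ R m k b) * (JJ R m k c + JJ R m k d) + JJ R m k c * JJ R m k d) := by
      have h := (q2.add_right (p2.mul_right (r2a.add_right r2d))).add_right (r2a.mul_right r2d)
      have e : JJ R m k b * JJ R m k c + (JJ R m k b + JJ R m k c) * (JJ R m k a + JJ R m k d) +
          JJ R m k a * JJ R m k d = JJ R m k a * JJ R m k b +
        (JJ R m k a + JJ R m k b) * (JJ R m k c + JJ R m k d) + JJ R m k c * JJ R m k d := by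
        simp only [mul_add, add_mul, cab.eq, cac.eq]
        abel
      rwa [e] at h
    exact t2.mul_left (t1.mul_left (t3.mul_left t2))
  obtain ⟨k1, k2⟩ := quad (N0 R m k) _ _ _ _ _ cac E1 E2 hB hD hA hC
    (fun u v h => two_cancel h2 h) u hu ht
  refine ⟨k1, k2, fun y ya yb yc yd => ?_⟩
  rw [map_mul, map_mul, map_mul]
  exact (r2 y yb yc).mul_left ((r1 y ya yb).mul_left ((r3 y yc yd).mul_left (r2 y yb yc)))

theorem t_SYMM (hCOM : C_COM) (hREL : C_REL) (hSYM : C_SYM2) (hV : C_V0) : C_SYMM := by
  intro R _ m k evs h2 hev f hf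
  obtain ⟨hc, -, hn⟩ := hCOM R (Pt m k) (Perm (Pt m k) → R) (LL R m k) rk (rk_inj m k)
  have hv0 := N0_v0 (R := R) (m := m) (k := k) hV hREL
  have hv := hV.2.2 R m k
  set w := evs f (v0 R m k) with hw
  -- `w` is in `MM`
  have hMM : w ∈ MM R m k := by
    refine evs_all evs (MM R m k) (fun c u hu => ?_) f _ (hv.2.2.2.1 hv.2.2.1)
    rw [hev c]
    show (∑ y : Pt m k with rk y < rk (ctr c), LL R m k (swap y (ctr c))) u ∈ MM R m k
    rw [LinearMap.sum_apply]
    exact Submodule.sum_mem _ fun y _ => hv.2.2.2.2 _ u hu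
  -- flips
  have hN0 : w ∈ N0 R m k := evs_all evs (N0 R m k) (fun c u hu => by
    rw [hev c]
    exact N0_J hCOM c u hu) f _ hv0
  have hflip : ∀ i : Fin m, LL R m k (iot (swap (i, false) (i, true)) 1) w = w := by
    intro i
    have h1 := (hN0 i).1
    have e : (iot (swap (i, false) (i, true)) 1 : Perm (Pt m k)) =
        swap (Sum.inl (i, false)) (Sum.inl (i, true)) := Equiv.Perm.sumCongr_swap_one _ _
    rw [e]
    exact h1
  -- pairs
  have hpair : ∀ i i' : Fin m, (i' : ℕ) = i + 1 → LL R m k (iot (PP (swap i i')) 1) w = w := by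
    intro i i' hii
    have hne : i ≠ i' := by
      intro h
      rw [h] at hii
      omega
    have hne' : (Sum.inl i : Fin m ⊕ Fin k) ≠ Sum.inl i' := by simp [hne]
    have hsw : rename (swap (Sum.inl i : Fin m ⊕ Fin k) (Sum.inl i')) f = f := by
      have h1 := hf (swap i i') 1
      have e : (swap (Sum.inl i : Fin m ⊕ Fin k) (Sum.inl i') : Fin m ⊕ Fin k → Fin m ⊕ Fin k) =
          Sum.map (swap i i') (1 : Perm (Fin k)) := by
        rw [← Equiv.Perm.sumCongr_swap_one]
        rfl
      rw [e]
      exact h1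
    have had := hSYM R (Fin m ⊕ Fin k) _ _ f hne' hsw
    let N : Submodule R (Perm (Pt m k) → R) :=
      { carrier := {u | u ∈ N0 R m k ∧ LL R m k (iot (PP (swap i i')) 1) u = u}
        zero_mem' := ⟨Submodule.zero_mem _, map_zero _⟩
        add_mem' := fun {u v} hu hv => ⟨Submodule.add_mem _ hu.1 hv.1, by
          rw [map_add, hu.2, hv.2]⟩
        smul_mem' := fun c u hu => ⟨Submodule.smul_mem _ c hu.1, by rw [map_smul, hu.2]⟩ }
    have hv0N : v0 R m k ∈ N := by
      refine ⟨hv0, ?_⟩
      have h1 : (iot (PP (swap i i')) 1 : Perm (Pt m k))⁻¹ = iot (PP (swap i i')) 1 := by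
        show (Equiv.Perm.sumCongr (PP (swap i i')) 1)⁻¹ = _
        rw [Equiv.Perm.sumCongr_inv]
        have e : (PP (swap i i'))⁻¹ = PP (swap i i') := by
          rw [inv_eq_iff_mul_eq_one, ← PP_mul, swap_mul_self]
          rfl
        rw [e, inv_one]
      rw [LL_v0 hV h1 (fun j => rfl)]
      simp [sg]
    have hwN : w ∈ N := by
      refine evs_adjoin evs _ N ?_ f had _ hv0N
      rintro g hg u hu
      obtain ⟨k1, k2, k3⟩ := pair_step hCOM h2 hii u hu.1 hu.2
      rcases hg with (hg | hg) | ⟨c, ⟨hc1, hc2⟩, rfl⟩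
      · rw [hg, map_add, hev, hev]
        exact ⟨Submodule.add_mem _ (N0_J hCOM (Sum.inl i) u hu.1)
          (N0_J hCOM (Sum.inl i') u hu.1), k1⟩
      · rw [Set.mem_singleton_iff] at hg
        rw [hg, map_mul, hev, hev]
        exact ⟨N0_J hCOM (Sum.inl i) _ (N0_J hCOM (Sum.inl i') u hu.1), k2⟩
      · rw [hev]
        refine ⟨N0_J hCOM c u hu.1, ?_⟩
        have h3 := k3 (ctr c) (by
          intro h
          rcases c with j | r
          · have := (Prod.ext_iff.1 (Sum.inl.inj h)).1
            exact hc1 (congrArg Sum.inl this)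
          · exact absurd h (by simp [ctr])) (by
          intro h
          rcases c with j | r
          · have := (Prod.ext_iff.1 (Sum.inl.inj h)).2
            exact absurd this (by simp)
          · exact absurd h (by simp [ctr])) (by
          intro h
          rcases c with j | r
          · have := (Prod.ext_iff.1 (Sum.inl.inj h)).1
            exact hc2 (congrArg Sum.inl this)
          · exact absurd h (by simp [ctr])) (by
          intro h
          rcases c with j | r
          · have := (Prod.ext_iff.1 (Sum.inl.inj h)).2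
            exact absurd this (by simp)
          · exact absurd h (by simp [ctr]))
        have h4 := LinearMap.congr_fun h3.eq u
        rw [Module.End.mul_apply, Module.End.mul_apply, hu.2] at h4
        exact h4
    exact hwN.2
  -- single points
  have hq : ∀ r r' : Fin k, (r' : ℕ) = r + 1 →
      LL R m k (iot 1 (swap r r')) w = (sg (swap r r')) • w := by
    intro r r' hrr
    have hne : r ≠ r' := by
      intro h
      rw [h] at hrr
      omega
    have hne' : (Sum.inr r : Fin m ⊕ Fin k) ≠ Sum.inr r' := by simp [hne]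
    have hsw : rename (swap (Sum.inr r : Fin m ⊕ Fin k) (Sum.inr r')) f = f := by
      have h1 := hf 1 (swap r r')
      have e : (swap (Sum.inr r : Fin m ⊕ Fin k) (Sum.inr r') : Fin m ⊕ Fin k → Fin m ⊕ Fin k) =
          Sum.map (1 : Perm (Fin m)) (swap r r') := by
        rw [← Equiv.Perm.sumCongr_one_swap]
        rfl
      rw [e]
      exact h1
    have had := hSYM R (Fin m ⊕ Fin k) _ _ f hne' hsw
    obtain ⟨n1, n1'⟩ := nb (show rk (Sum.inr r' : Pt m k) = rk (Sum.inr r) + 1 by
      simp only [rk]; omega)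
    obtain ⟨-, p1, q1, r1⟩ := hn _ _ n1 n1'
    have e0 : (iot 1 (swap r r') : Perm (Pt m k)) = swap (Sum.inr r) (Sum.inr r') :=
      Equiv.Perm.sumCongr_one_swap _ _
    have hcomm : ∀ g ∈ Algebra.adjoin R ({X (Sum.inr r) + X (Sum.inr r'),
        X (Sum.inr r) * X (Sum.inr r')} ∪ X '' {l : Fin m ⊕ Fin k | l ≠ Sum.inr r ∧
          l ≠ Sum.inr r'}), Commute (LL R m k (swap (Sum.inr r) (Sum.inr r'))) (evs g) := by
      intro g hg
      refine Algebra.adjoin_induction (p := fun g _ => Commute
        (LL R m k (swap (Sum.inr r) (Sum.inr r'))) (evs g)) ?_ ?_ ?_ ?_ hg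
      · rintro g ((hg | hg) | ⟨c, ⟨hc1, hc2⟩, rfl⟩)
        · rw [hg, map_add, hev, hev]
          exact p1
        · rw [Set.mem_singleton_iff] at hg
          rw [hg, map_mul, hev, hev]
          exact q1
        · rw [hev]
          refine r1 (ctr c) ?_ ?_
          · intro h
            rcases c with j | s
            · exact absurd h (by simp [ctr])
            · exact hc1 (congrArg Sum.inr (Sum.inr.inj h))
          · intro h
            rcases c with j | s
            · exact absurd h (by simp [ctr])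
            · exact hc2 (congrArg Sum.inr (Sum.inr.inj h))
      · intro a
        rw [AlgHom.commutes]
        exact Algebra.commutes' a _ |>.symm
      · intro a b _ _ ha hb
        rw [map_add]
        exact ha.add_right hb
      · intro a b _ _ ha hb
        rw [map_mul]
        exact ha.mul_right hb
    have h1 := LinearMap.congr_fun (hcomm f had).eq (v0 R m k)
    rw [Module.End.mul_apply, Module.End.mul_apply] at h1
    have h3 : (swap (Sum.inr r) (Sum.inr r') : Perm (Pt m k))⁻¹ = iot 1 (swap r r') := by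
      rw [swap_inv, e0]
    rw [e0, hw, h1, LL_v0 hV h3 (fun j => rfl), map_zsmul]
  -- all permutations
  have hiot : ∀ (a a' : Perm (Fin m × Bool)) (b b' : Perm (Fin k)),
      (iot (a * a') (b * b') : Perm (Pt m k)) = iot a b * iot a' b' := fun a a' b b' =>
    (Equiv.Perm.sumCongr_mul _ _ _ _).symm
  have hb : ∀ b : Perm (Fin k), LL R m k (iot 1 b) w = sg b • w := by
    intro b
    refine perm_ind (fun b => LL R m k (iot 1 b) w = sg b • w) ?_ ?_ hq b
    · have e : (iot 1 1 : Perm (Pt m k)) = 1 := Equiv.Perm.sumCongr_one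
      rw [e, map_one]
      simp [sg]
    · intro σ τ hσ hτ
      have e : (iot 1 (σ * τ) : Perm (Pt m k)) = iot 1 σ * iot 1 τ := by
        rw [← hiot, one_mul]
      rw [e, map_mul, Module.End.mul_apply, hτ, map_zsmul, hσ, smul_smul]
      simp [sg, mul_comm]
  have hπ : ∀ π : Perm (Fin m), LL R m k (iot (PP π) 1) w = w := by
    intro π
    refine perm_ind (fun π => LL R m k (iot (PP π) 1) w = w) ?_ ?_ hpair π
    · have e : (iot (PP 1) 1 : Perm (Pt m k)) = 1 := Equiv.Perm.sumCongr_one
      rw [e, map_one]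
      rfl
    · intro σ τ hσ hτ
      have e : (iot (PP (σ * τ)) 1 : Perm (Pt m k)) = iot (PP σ) 1 * iot (PP τ) 1 := by
        rw [← hiot, PP_mul, one_mul]
      rw [e, map_mul, Module.End.mul_apply, hτ, hσ]
  have hS : ∀ S : Finset (Fin m), LL R m k (iot (FS S) 1) w = w := by
    intro S
    induction S using Finset.induction_on with
    | empty =>
      have e : (iot (FS ∅) 1 : Perm (Pt m k)) = 1 := by
        rw [FS_empty]
        exact Equiv.Perm.sumCongr_one
      rw [e, map_one]
      rfl
    | insert i S hi ih =>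
      have e : (iot (FS (insert i S)) 1 : Perm (Pt m k)) =
          iot (swap (i, false) (i, true)) 1 * iot (FS S) 1 := by
        rw [← hiot, FS_insert S i hi, one_mul]
      rw [e, map_mul, Module.End.mul_apply, ih, hflip]
  have hall : ∀ a b, wr a → LL R m k (iot a b) w = sg b • w := by
    intro a b ha
    obtain ⟨π, S, rfl⟩ := wr_decomp hV a ha
    have e : (iot (PP π * FS S) b : Perm (Pt m k)) =
        iot (PP π) 1 * (iot (FS S) 1 * iot 1 b) := by
      rw [← hiot, ← hiot]
      simp
    rw [e, map_mul, map_mul, Module.End.mul_apply, Module.End.mul_apply, hb, map_zsmul, hS,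
      map_zsmul, hπ]
  have hsg : ∀ b : Perm (Fin k), sg b * sg b = 1 := by
    intro b
    show ((Perm.sign b : ℤˣ) : ℤ) * ((Perm.sign b : ℤˣ) : ℤ) = 1
    rw [← Units.val_mul, Int.units_mul_self]
    rfl
  intro g a b ha
  refine ⟨hMM g a b ha, ?_⟩
  have h1 := hall a b ha
  have h3 : LL R m k (iot a b)⁻¹ w = sg b • w := by
    have h4 : LL R m k (iot a b)⁻¹ (LL R m k (iot a b) w) = w := by
      rw [← Module.End.mul_apply, ← map_mul, inv_mul_cancel, map_one]
      rfl
    rw [h1, map_zsmul] at h4
    rw [← h4, smul_smul, hsg, one_smul, h4]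
  have h5 := congrFun h3 g
  have h6 : w ((iot a b)⁻¹⁻¹ * g) = (sg b • w) g := h5
  rw [inv_inv] at h6
  exact h6

end main

end Pool.Agent.H37.TF
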